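import Pool.Agent.H25.Split4

/-! Splitting methods whose coefficients all have positive real part exist for every order. -/

namespace Pool.Agent.Results.MP_18dddc_an.AllOrders

open Filter Topology Asymptotics Pool.Agent.H25.Split

/-- `y = e^{τ f} x`: `y` is the value at `s = 1` of a solution of `γ' = τ f(γ)` on `[0,1]`
with `γ 0 = x`. -/
def IsFlow {E : Type} [NormedAddCommGroup E] [NormedSpace ℂ E] (f : E → E) (τ : ℂ) (x y : E) :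
    Prop :=
  ∃ γ : ℝ → E, γ 0 = x ∧ γ 1 = y ∧
    ∀ s ∈ Set.Icc (0 : ℝ) 1, HasDerivWithinAt γ (τ • f (γ s)) (Set.Icc 0 1) s

/-- `y = e^{α_1 T f_0} e^{β_1 T f_1} ⋯ e^{α_k T f_0} e^{β_k T f_1} x` for the list
`[(α_1, β_1), …, (α_k, β_k)]` (the rightmost flow acts first). -/
def IsSplit {E : Type} [NormedAddCommGroup E] [NormedSpace ℂ E] (f₀ f₁ : E → E) (T : ℝ) :
    List (ℂ × ℂ) → E → E → Prop
  | [], x, y => y = x
  | p :: l, x, y => ∃ z w, IsSplit f₀ f₁ T l x z ∧ IsFlow f₁ (p.2 * T) z w ∧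
      IsFlow f₀ (p.1 * T) w y

section
variable {E : Type} [NormedAddCommGroup E] [NormedSpace ℂ E] [FiniteDimensional ℂ E]

omit [FiniteDimensional ℂ E] in
theorem flow_iff (f : Sm E) (c : ℂ) : (fun (T : ℝ) x y => IsFlow f.1 (c * T) x y) =
    fun T x y => ∃ γ : ℝ → E, γ 0 = x ∧ γ 1 = y ∧ Sol (c • f).1 T γ := by
  funext T x y
  simp only [IsFlow, Sol, Submodule.coe_smul, Pi.smul_apply, ← Complex.coe_smul, smul_smul,
    mul_comm c]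

/-- the two Lie derivatives -/
noncomputable def LL (f₀ f₁ : Sm E) : Bool → Module.End ℂ (Sm E) :=
  fun l => if l then Lie f₀ else Lie (f₀ + f₁)

theorem eA (f₀ f₁ : Sm E) (a : ℂ) :
    Expn (LL f₀ f₁) (ex (pr 0 a)) (fun T x y => IsFlow f₀.1 (a * T) x y) := by
  rw [flow_iff]
  refine expn_flow _ _ ?_
  ext φ x
  simp [LL, pr, Lie_ap]

theorem eB (f₀ f₁ : Sm E) (b : ℂ) :
    Expn (LL f₀ f₁) (ex (pr b (-b))) (fun T x y => IsFlow f₁.1 (b * T) x y) := by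
  rw [flow_iff]
  refine expn_flow _ _ ?_
  ext φ x
  simp [LL, pr, Lie_ap]

theorem eX (f₀ f₁ : Sm E) :
    Expn (LL f₀ f₁) (ex (pr 1 0)) (fun T x y => IsFlow (f₀ + f₁).1 (1 * T) x y) := by
  rw [flow_iff]
  refine expn_flow _ _ ?_
  ext φ x
  simp [LL, pr, Lie_ap]

theorem xF (f : Sm E) (c : ℂ) : Exst (fun T x y => IsFlow f.1 (c * T) x y) := by
  rw [flow_iff]; exact exst_flow _

theorem split (f₀ f₁ : Sm E) (l : List (ℂ × ℂ)) :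
    (l.map fun p => ex (pr 0 p.1) * ex (pr p.2 (-p.2))).prod [] = 1 ∧
    Expn (LL f₀ f₁) (l.map fun p => ex (pr 0 p.1) * ex (pr p.2 (-p.2))).prod
      (fun T x y => IsSplit f₀.1 f₁.1 T l x y) ∧
    Exst (fun T x y => IsSplit f₀.1 f₁.1 T l x y) := by
  induction l with
  | nil =>
    exact ⟨by simp [one_ap], Expn.one, fun ι l T x x0 _ _ => Eventually.of_forall fun i => ⟨_, rfl⟩⟩
  | cons p l ih =>
    obtain ⟨i1, i2, i3⟩ := ih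
    have e : (fun T x y => IsSplit f₀.1 f₁.1 T (p :: l) x y) = fun (T : ℝ) x y =>
        ∃ z, IsSplit f₀.1 f₁.1 T l x z ∧ ∃ w, IsFlow f₁.1 (p.2 * T) z w ∧
          IsFlow f₀.1 (p.1 * T) w y := by
      funext T x y
      simp only [IsSplit, exists_and_left]
    rw [e, List.map_cons, List.prod_cons]
    exact ⟨by rw [mul_nil, mul_nil, ex_nil, ex_nil, i1]; simp,
      ((eA f₀ f₁ p.1).comp (eB f₀ f₁ p.2) (ex_nil _)).comp i2 i1,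
      ((xF f₀ p.1).comp (xF f₁ p.2) (eB f₀ f₁ p.2) (ex_nil _)).comp i3 i2 i1⟩

end

theorem result (N : ℕ) : ∃ l : List (ℂ × ℂ), l ≠ [] ∧
    (∀ p ∈ l, 0 < p.1.re ∧ 0 < p.2.re ∧ p.2.im = 0) ∧
    ∀ (d : ℕ) (f₀ f₁ : EuclideanSpace ℂ (Fin d) → EuclideanSpace ℂ (Fin d)),
      AnalyticOnNhd ℂ f₀ Set.univ → AnalyticOnNhd ℂ f₁ Set.univ →
      ∀ x₀ : EuclideanSpace ℂ (Fin d), ∃ C T₀ : ℝ, 0 < T₀ ∧ ∀ T : ℝ, 0 < T → T < T₀ →
        (∃ x, IsFlow (f₀ + f₁) T x₀ x) ∧ (∃ y, IsSplit f₀ f₁ T l x₀ y) ∧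
        ∀ x y, IsFlow (f₀ + f₁) T x₀ x → IsSplit f₀ f₁ T l x₀ y →
          ‖x - y‖ ≤ C * T ^ (N + 1) := by
  obtain ⟨l, l0, l1, l2⟩ := alg_main (N + 1)
  refine ⟨l.map fun p => (p.1, (p.2 : ℂ)), by simpa using l0, ?_, fun d f₀ f₁ h₀ h₁ x₀ => ?_⟩
  · intro p hp
    obtain ⟨q, hq, rfl⟩ := List.mem_map.1 hp
    simpa using l1 q hq
  set l' := l.map fun p => (p.1, (p.2 : ℂ)) with hl'
  let F₀ : Sm _ := ⟨f₀, Sm.mem h₀.contDiff⟩
  let F₁ : Sm _ := ⟨f₁, Sm.mem h₁.contDiff⟩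
  obtain ⟨_, s2, s3⟩ := split F₀ F₁ l'
  have e : (l'.map fun p => ex (pr 0 p.1) * ex (pr p.2 (-p.2))) =
      l.map fun p => ex (pr 0 p.1) * ex (pr p.2 (-p.2)) := by
    rw [hl', List.map_map]; rfl
  rw [e] at s2
  have x1 := xF (F₀ + F₁) 1 ℝ (𝓝[>] 0) id (fun _ => x₀) x₀ tendsto_id tendsto_const_nhds
  have x2 := s3 ℝ (𝓝[>] 0) id (fun _ => x₀) x₀ tendsto_id tendsto_const_nhds
  let G : Filter (ℝ × EuclideanSpace ℂ (Fin d) × EuclideanSpace ℂ (Fin d)) :=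
    comap Prod.fst (𝓝[>] 0) ⊓ 𝓟 {p | IsFlow (f₀ + f₁) (1 * p.1) x₀ p.2.1 ∧
      IsSplit f₀ f₁ p.1 l' x₀ p.2.2}
  have g1 : Tendsto Prod.fst G (𝓝[>] 0) := tendsto_comap.mono_left inf_le_left
  have g2 : ∀ᶠ p in G, IsFlow (f₀ + f₁) (1 * p.1) x₀ p.2.1 ∧ IsSplit f₀ f₁ p.1 l' x₀ p.2.2 :=
    eventually_inf_principal.2 (Eventually.of_forall fun _ h => h)
  have b1 := eX F₀ F₁ _ G Prod.fst (fun _ => x₀) (fun p => p.2.1) x₀ g1 tendsto_const_nhds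
    (g2.mono fun _ h => h.1) (N + 1) ⟨id, Sm.mem contDiff_id⟩
  have b2 := s2 _ G Prod.fst (fun _ => x₀) (fun p => p.2.2) x₀ g1 tendsto_const_nhds
    (g2.mono fun _ h => h.2) (N + 1) ⟨id, Sm.mem contDiff_id⟩
  have b3 : (fun p : ℝ × EuclideanSpace ℂ (Fin d) × EuclideanSpace ℂ (Fin d) =>
      p.2.1 - p.2.2) =O[G] fun p => p.1 ^ (N + 1) := by
    refine (b1.sub b2).congr_left fun p => ?_
    rw [ev_congr _ _ _ _ _ _ l2]
    simp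
  obtain ⟨C, hC⟩ := b3.bound
  rw [eventually_inf_principal, eventually_comap] at hC
  obtain ⟨T₀, T0, hT⟩ := (nhdsGT_basis (0 : ℝ)).eventually_iff.1 (x1.and (x2.and hC))
  refine ⟨C, T₀, T0, fun T t0 t1 => ?_⟩
  obtain ⟨a1, a2, a3⟩ := hT ⟨t0, t1⟩
  refine ⟨by simpa using a1, a2, fun x y hx hy => ?_⟩
  have := a3 (T, x, y) rfl ⟨by simpa using hx, hy⟩
  rwa [Real.norm_of_nonneg (pow_nonneg t0.le _)] at this

end Pool.Agent.Results.MP_18dddc_an.AllOrders
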